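import Pool.Agent.Lib.MP_4a5b11_an.States

namespace Pool.Agent.Lib.MP_4a5b11_an

open Set

/-- If every set of a family lies, up to a countable set, in a half-size copy of another set of
the family, then all sets of the family are countable. -/
theorem countable_of_chain {ι : Type*} (I : Set ι) (X : ι → Set ℝ) (hX : ∀ i, X i ⊆ Icc 0 1)
    (h : ∀ i ∈ I, ∃ j ∈ I, Sub (X i) (X j) (1 / 2)) : ∀ i ∈ I, (X i).Countable := by
  classical
  have h' : ∀ i ∈ I, ∃ j, j ∈ I ∧ ∃ A : Set ℝ, A.Countable ∧ ∃ a : ℝ,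
      X i ⊆ A ∪ (fun t => a + 1 / 2 * t) '' X j := h
  choose! nx hnx A hA a hsub using h'
  let Bn : ℕ → ι → Set ℝ := fun n =>
    Nat.rec (fun i => A i) (fun _ B i => (fun t => a i + 1 / 2 * t) '' B (nx i)) n
  have hB0 : ∀ i, Bn 0 i = A i := fun _ => rfl
  have hBs : ∀ n i, Bn (n + 1) i = (fun t => a i + 1 / 2 * t) '' Bn n (nx i) := fun _ _ => rfl
  have hBc : ∀ n, ∀ i ∈ I, (Bn n i).Countable := by
    intro n
    induction n with
    | zero => intro i hi; rw [hB0]; exact hA i hi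
    | succ n ih => intro i hi; rw [hBs]; exact (ih _ (hnx i hi)).image _
  let B : ι → Set ℝ := fun i => ⋃ n, Bn n i
  have hstep : ∀ i ∈ I, ∀ t ∈ X i \ B i, ∃ s ∈ X (nx i) \ B (nx i), t = a i + 1 / 2 * s := by
    rintro i hi t ⟨htX, htB⟩
    rcases hsub i hi htX with h2 | ⟨s, hs, rfl⟩
    · exact absurd (mem_iUnion.2 ⟨0, h2⟩) htB
    · refine ⟨s, ⟨hs, fun hsB => htB ?_⟩, rfl⟩
      obtain ⟨n, hn⟩ := mem_iUnion.1 hsB
      exact mem_iUnion.2 ⟨n + 1, by rw [hBs]; exact ⟨s, hn, rfl⟩⟩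
  have hdist : ∀ n : ℕ, ∀ i ∈ I, ∀ t ∈ X i \ B i, ∀ t' ∈ X i \ B i,
      |t - t'| ≤ (1 / 2 : ℝ) ^ n := by
    intro n
    induction n with
    | zero =>
      intro i _ t ht t' ht'
      have e1 := hX i ht.1
      have e2 := hX i ht'.1
      rw [pow_zero, abs_le]
      constructor <;> linarith [e1.1, e1.2, e2.1, e2.2]
    | succ n ih =>
      intro i hi t ht t' ht'
      obtain ⟨s, hs, rfl⟩ := hstep i hi t ht
      obtain ⟨s', hs', rfl⟩ := hstep i hi t' ht'
      have e := ih _ (hnx i hi) s hs s' hs'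
      have e2 : a i + 1 / 2 * s - (a i + 1 / 2 * s') = 1 / 2 * (s - s') := by ring
      rw [e2, abs_mul, abs_of_nonneg (by norm_num : (0 : ℝ) ≤ 1 / 2), pow_succ]
      linarith
  intro i hi
  have hsing : (X i \ B i).Subsingleton := by
    intro t ht t' ht'
    have hlim := tendsto_pow_atTop_nhds_zero_of_lt_one (r := (1 / 2 : ℝ)) (by norm_num)
      (by norm_num)
    have e := ge_of_tendsto' hlim (fun n => hdist n i hi t ht t' ht')
    have e2 : |t - t'| = 0 := le_antisymm e (abs_nonneg _)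
    rw [abs_eq_zero] at e2
    linarith
  refine ((countable_iUnion (fun n => hBc n i hi)).union hsing.countable).mono ?_
  intro t ht
  by_cases htB : t ∈ B i
  · exact Or.inl htB
  · exact Or.inr ⟨ht, htB⟩

theorem sub_of_countable {X Y : Set ℝ} {l : ℝ} (h : X.Countable) : Sub X Y l :=
  ⟨X, h, 0, subset_union_left⟩

theorem takagi_third : takagi (1 / 3) = 2 / 3 := by
  have h1 := takagi_left (x := 1 / 3) (by norm_num) (by norm_num)
  have h2 := takagi_one_sub (1 / 3)
  rw [show (2 : ℝ) * (1 / 3) = 1 - 1 / 3 by norm_num, h2] at h1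
  linarith

theorem S_nonempty' (d : ℕ) : ∀ c : ℝ, 0 ≤ c → c ≤ d + 2 / 3 / 2 ^ d → (S d c).Nonempty := by
  induction d with
  | zero =>
    intro c h0 h1
    have hc : ContinuousOn takagi (Icc 0 (1 / 3)) := continuous_takagi.continuousOn
    have h := intermediate_value_Icc (by norm_num : (0 : ℝ) ≤ 1 / 3) hc
    obtain ⟨t, ht, e⟩ := h (show c ∈ Icc _ _ by
      rw [takagi_zero, takagi_third]; exact ⟨h0, by simpa using h1⟩)
    exact ⟨t, ⟨ht.1, by linarith [ht.2]⟩, by simpa using e⟩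
  | succ d ih =>
    intro c h0 h1
    rcases le_total c ((d + 1 : ℕ) : ℝ) with h | h
    · exact S_nonempty h0 h
    · push_cast at h h1
      have hd : (0 : ℝ) ≤ d := Nat.cast_nonneg d
      have e : (2 : ℝ) / 3 / 2 ^ (d + 1) = 2 / 3 / 2 ^ d / 2 := by rw [pow_succ, ← div_div]
      obtain ⟨t, ht⟩ := ih (2 * c - d - 2) (by linarith) (by rw [e] at h1; linarith)
      exact ⟨_, S_right ht⟩

theorem enc_left (d : ℕ) (c : ℝ) : (S (d + 1) (2 * c)).encard ≤ (S d c).encard := by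
  refine encard_le_encard_of_injOn (f := fun t : ℝ => t / 2) (fun t ht => S_left ht) ?_
  intro s _ t _ e
  simp only at e
  linarith

theorem enc_right (d : ℕ) (c : ℝ) : (S d (2 * c - d - 2)).encard ≤ (S (d + 1) c).encard := by
  refine encard_le_encard_of_injOn (f := fun t : ℝ => (1 + t) / 2) (fun t ht => S_right ht) ?_
  intro s _ t _ e
  simp only at e
  linarith

theorem enc_branch (d : ℕ) (c : ℝ) (hne : (S (d + 2) (2 * c)).Nonempty)
    (h0 : 2 * c - d - 2 ≠ 0) : (S d (2 * c - d - 2)).encard + 1 ≤ (S (d + 1) c).encard := by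
  obtain ⟨u, hu⟩ := hne
  have hinj : InjOn (fun t : ℝ => (1 + t) / 2) (S d (2 * c - d - 2)) := by
    intro s _ t _ e
    simp only at e
    linarith
  have hnot : u / 2 ∉ (fun t : ℝ => (1 + t) / 2) '' S d (2 * c - d - 2) := by
    rintro ⟨t, ht, e⟩
    simp only at e
    have t0 : t = 0 := by linarith [ht.1.1, hu.1.2]
    have h2 := ht.2
    rw [t0, takagi_zero] at h2
    apply h0
    linarith
  rw [← hinj.encard_image, ← encard_insert_of_notMem hnot]
  refine encard_le_encard ?_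
  rintro x (rfl | ⟨t, ht, rfl⟩)
  · exact S_left (d := d + 1) hu
  · exact S_right ht

theorem enc_L {d : ℕ} {c c' : ℝ} {n : ℕ∞} (h : n ≤ (S (d + 1) c').encard) (e : 2 * c = c') :
    n ≤ (S d c).encard := (e ▸ h).trans (enc_left d c)

theorem enc_R {d : ℕ} {c c' : ℝ} {n : ℕ∞} (h : n ≤ (S d c').encard) (e : 2 * c - d - 2 = c') :
    n ≤ (S (d + 1) c).encard := (e ▸ h).trans (enc_right d c)

end Pool.Agent.Lib.MP_4a5b11_an
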