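import Pool.Agent.Lib.MP_4a5b11_an.Defs

namespace Pool.Agent.Lib.MP_4a5b11_an

open Set

theorem phi_eq (x : ℝ) : phi x = |x - round x| := by
  unfold phi
  apply le_antisymm
  · have h := Metric.infDist_le_dist_of_mem (x := x) (s := Set.range (Int.cast : ℤ → ℝ))
      (y := (round x : ℝ)) ⟨round x, rfl⟩
    rwa [Real.dist_eq] at h
  · rw [Metric.le_infDist (Set.range_nonempty _)]
    rintro _ ⟨k, rfl⟩
    rw [Real.dist_eq]
    exact round_le x k

theorem phi_nonneg (x : ℝ) : 0 ≤ phi x := by rw [phi_eq]; exact abs_nonneg _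

theorem phi_le (x : ℝ) (k : ℤ) : phi x ≤ |x - k| := by rw [phi_eq]; exact round_le x k

theorem phi_le_half (x : ℝ) : phi x ≤ 1 / 2 := by rw [phi_eq]; exact abs_sub_round x

theorem phi_add_int (x : ℝ) (k : ℤ) : phi (x + k) = phi x := by
  rw [phi_eq, phi_eq, round_add_intCast]; push_cast; congr 1; ring

theorem phi_neg (x : ℝ) : phi (-x) = phi x := by
  apply le_antisymm
  · have h := phi_le (-x) (-(round x))
    rw [phi_eq x]
    refine h.trans (le_of_eq ?_)
    push_cast
    rw [← abs_neg]; congr 1; ring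
  · have h := phi_le x (-(round (-x)))
    rw [phi_eq (-x)]
    refine h.trans (le_of_eq ?_)
    push_cast
    rw [← abs_neg]; congr 1; ring

theorem phi_of_left {x : ℝ} (h0 : 0 ≤ x) (h1 : x ≤ 1 / 2) : phi x = x := by
  apply le_antisymm
  · have h := phi_le x 0
    simpa [abs_of_nonneg h0] using h
  · rw [phi_eq]
    rcases le_or_gt (round x) 0 with h | h
    · have : (round x : ℝ) ≤ 0 := by exact_mod_cast h
      exact le_trans (by linarith) (le_abs_self _)
    · have : (1 : ℝ) ≤ (round x : ℝ) := by exact_mod_cast h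
      exact le_trans (by linarith) (neg_le_abs _)

theorem phi_of_right {x : ℝ} (h0 : 1 / 2 ≤ x) (h1 : x ≤ 1) : phi x = 1 - x := by
  have h : phi x = phi (1 - x) := by
    rw [← phi_neg x, ← phi_add_int (-x) 1]; congr 1; push_cast; ring
  rw [h]; exact phi_of_left (by linarith) (by linarith)

theorem continuous_phi : Continuous phi := Metric.continuous_infDist_pt _

theorem term_bound (x : ℝ) (n : ℕ) : ‖phi (2 ^ n * x) / 2 ^ n‖ ≤ (1 / 2 : ℝ) ^ n := by
  rw [Real.norm_eq_abs, abs_of_nonneg (div_nonneg (phi_nonneg _) (by positivity)), one_div_pow]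
  apply div_le_div_of_nonneg_right _ (by positivity)
  linarith [phi_le_half (2 ^ n * x)]

theorem summable_takagi (x : ℝ) : Summable (fun n : ℕ => phi (2 ^ n * x) / 2 ^ n) :=
  Summable.of_norm_bounded summable_geometric_two (term_bound x)

theorem continuous_takagi : Continuous takagi := by
  unfold takagi
  refine continuous_tsum (fun n => ?_) summable_geometric_two (fun n x => term_bound x n)
  exact (continuous_phi.comp (continuous_const.mul continuous_id)).div_const _

theorem takagi_eq (x : ℝ) : takagi x = phi x + takagi (2 * x) / 2 := by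
  unfold takagi
  rw [(summable_takagi x).tsum_eq_zero_add, ← tsum_div_const]
  congr 1
  · simp
  · congr 1; ext n; rw [pow_succ, mul_assoc, div_div]

theorem takagi_add_int (x : ℝ) (k : ℤ) : takagi (x + k) = takagi x := by
  unfold takagi
  congr 1; ext n
  rw [mul_add, ← phi_add_int (2 ^ n * x) (2 ^ n * k)]
  push_cast; rfl

theorem takagi_neg (x : ℝ) : takagi (-x) = takagi x := by
  unfold takagi
  congr 1; ext n
  rw [mul_neg, phi_neg]

theorem takagi_one_sub (x : ℝ) : takagi (1 - x) = takagi x := by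
  rw [← takagi_neg x, ← takagi_add_int (-x) 1]; congr 1; push_cast; ring

theorem takagi_nonneg (x : ℝ) : 0 ≤ takagi x :=
  tsum_nonneg (fun n => div_nonneg (phi_nonneg _) (by positivity))

theorem takagi_zero : takagi 0 = 0 := by
  have h := takagi_eq 0
  rw [phi_of_left le_rfl (by norm_num), mul_zero] at h
  linarith

theorem takagi_int (k : ℤ) : takagi k = 0 := by
  have h := takagi_add_int 0 k
  rw [zero_add, takagi_zero] at h; exact h

theorem takagi_one : takagi 1 = 0 := by simpa using takagi_int 1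

theorem takagi_le_two (x : ℝ) : takagi x ≤ 2 := by
  rw [← tsum_geometric_two]
  refine (summable_takagi x).tsum_le_tsum (fun n => ?_) summable_geometric_two
  exact le_trans (le_abs_self _) (term_bound x n)

theorem takagi_left {x : ℝ} (h0 : 0 ≤ x) (h1 : x ≤ 1 / 2) :
    takagi x = x + takagi (2 * x) / 2 := by
  rw [takagi_eq x, phi_of_left h0 h1]

theorem takagi_right {x : ℝ} (h0 : 1 / 2 ≤ x) (h1 : x ≤ 1) :
    takagi x = 1 - x + takagi (2 * x - 1) / 2 := by
  rw [takagi_eq x, phi_of_right h0 h1, ← takagi_add_int (2 * x - 1) 1]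
  congr 3; push_cast; ring

theorem phi_two (x : ℝ) : phi x + phi (2 * x) / 2 ≤ 1 / 2 := by
  have h1 : phi x = |x - round x| := phi_eq x
  have h2 := abs_sub_round x
  rcases le_total 0 (x - round x) with h | h
  · have h3 := phi_le (2 * x) (2 * round x + 1)
    rw [abs_of_nonneg h] at h1 h2
    rw [abs_of_nonpos (by push_cast; linarith)] at h3
    push_cast at h3
    linarith
  · have h3 := phi_le (2 * x) (2 * round x - 1)
    rw [abs_of_nonpos h] at h1 h2
    rw [abs_of_nonneg (by push_cast; linarith)] at h3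
    push_cast at h3
    linarith

theorem takagi_le_aux (n : ℕ) : ∀ x : ℝ, takagi x ≤ 2 / 3 + 2 * (1 / 4 : ℝ) ^ n := by
  induction n with
  | zero => intro x; have := takagi_le_two x; norm_num; linarith
  | succ n ih =>
    intro x
    have h1 := takagi_eq x
    have h2 := takagi_eq (2 * x)
    have h3 := ih (2 * (2 * x))
    have h4 := phi_two x
    rw [pow_succ]
    linarith

theorem takagi_le (x : ℝ) : takagi x ≤ 2 / 3 := by
  have h : Filter.Tendsto (fun n : ℕ => 2 / 3 + 2 * (1 / 4 : ℝ) ^ n) Filter.atTop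
      (nhds (2 / 3 + 2 * 0)) :=
    ((tendsto_pow_atTop_nhds_zero_of_lt_one (by norm_num) (by norm_num)).const_mul 2).const_add _
  have h2 := ge_of_tendsto' h (fun n => takagi_le_aux n x)
  linarith

theorem takagi_sub_le (d : ℕ) : ∀ u : ℝ, 0 ≤ u → u ≤ 1 →
    takagi u - d * u ≤ 2 / 3 / 2 ^ d := by
  induction d with
  | zero => intro u _ _; have := takagi_le u; simpa using this
  | succ d ih =>
    intro u h0 h1
    have hp : (0 : ℝ) < 2 ^ d := by positivity
    rcases le_total u (1 / 2) with h | h
    · have h2 := ih (2 * u) (by linarith) (by linarith)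
      rw [takagi_left h0 h, pow_succ, ← div_div]
      push_cast
      linarith
    · have h2 := takagi_le (2 * u - 1)
      rw [takagi_right h h1, pow_succ, mul_comm ((2 : ℝ) ^ d), ← div_div]
      push_cast
      rcases Nat.eq_zero_or_pos d with rfl | hd
      · norm_num; linarith
      · have h3 : (1 : ℝ) ≤ d := by exact_mod_cast hd
        have h4 : (0 : ℝ) ≤ 2 / 3 / 2 / 2 ^ d := by positivity
        nlinarith

theorem takagi_dyadic (m : ℕ) : ∀ k : ℤ, ∃ j : ℤ, takagi (k / 2 ^ m) = j / 2 ^ m := by
  induction m with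
  | zero => intro k; exact ⟨0, by simp [takagi_int]⟩
  | succ m ih =>
    intro k
    obtain ⟨j, hj⟩ := ih k
    refine ⟨|k - round ((k : ℝ) / 2 ^ (m + 1)) * 2 ^ (m + 1)| + j, ?_⟩
    have h2 : 2 * ((k : ℝ) / 2 ^ (m + 1)) = k / 2 ^ m := by
      rw [pow_succ]; field_simp
    rw [takagi_eq, h2, hj, phi_eq]
    push_cast
    have hp : (0 : ℝ) < 2 ^ (m + 1) := by positivity
    rw [add_div, ← abs_of_pos hp, ← abs_div, abs_of_pos hp]
    congr 1
    · congr 1; field_simp
    · rw [pow_succ, div_div]

end Pool.Agent.Lib.MP_4a5b11_an
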