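import Pool.Agent.Lib.MP_4a5b11_an.States

namespace Pool.Agent.Lib.MP_4a5b11_an

open Set

theorem cnt_L {d : ℕ} {c c' : ℝ} (h : (S (d + 2) c').Countable) (e : 2 * c = c')
    (hneg : 2 * c - d - 2 < 0) : (S (d + 1) c).Countable :=
  cnt_step (e ▸ h) (countable_of_empty (S_empty_neg hneg))

theorem cnt_R {d : ℕ} {c c' : ℝ} (h : (S d c').Countable) (e : 2 * c - d - 2 = c')
    (hbig : ((d + 2 : ℕ) : ℝ) + 2 / 3 / 2 ^ (d + 2) < 2 * c) : (S (d + 1) c).Countable :=
  cnt_step (countable_of_empty (S_empty_big hbig)) (e ▸ h)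

theorem sub_L {d : ℕ} {c c' l : ℝ} {Y : Set ℝ} (h : Sub (S (d + 2) c') Y l) (e : 2 * c = c')
    (hneg : 2 * c - d - 2 < 0) : Sub (S (d + 1) c) Y (l / 2) :=
  sub_left (e ▸ h) (countable_of_empty (S_empty_neg hneg))

theorem sub_R {d : ℕ} {c c' l : ℝ} {Y : Set ℝ} (h : Sub (S d c') Y l) (e : 2 * c - d - 2 = c')
    (hbig : ((d + 2 : ℕ) : ℝ) + 2 / 3 / 2 ^ (d + 2) < 2 * c) : Sub (S (d + 1) c) Y (l / 2) :=
  sub_right (countable_of_empty (S_empty_big hbig)) (e ▸ h)

theorem sub_X {d : ℕ} {c c' c'' l : ℝ} {Y : Set ℝ} (h : Sub (S d c') Y l)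
    (e : 2 * c - d - 2 = c') (hx : (S (d + 2) c'').Countable) (e' : 2 * c = c'') :
    Sub (S (d + 1) c) Y (l / 2) :=
  sub_right (e' ▸ hx) (e ▸ h)

theorem mem_L {d : ℕ} {c c' t : ℝ} (h : t ∈ S (d + 1) c') (e : 2 * c = c') : t / 2 ∈ S d c :=
  S_left (e ▸ h)

theorem mem_R {d : ℕ} {c c' t : ℝ} (h : t ∈ S d c') (e : 2 * c - d - 2 = c') :
    (1 + t) / 2 ∈ S (d + 1) c :=
  S_right (e ▸ h)

theorem cycleB : (S 2 (18634 / 37449 : ℝ)).Countable := by
  have h0 : Sub (S 2 (18634 / 37449 : ℝ)) (S 2 (18634 / 37449 : ℝ)) 1 := Sub.refl _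
  have h1 := sub_R (d := 2) (c := (84215 / 37449 : ℝ)) h0 (by norm_num) (by norm_num)
  have h2 := sub_R (d := 3) (c := (135730 / 37449 : ℝ)) h1 (by norm_num) (by norm_num)
  have h3 := sub_R (d := 4) (c := (180212 / 37449 : ℝ)) h2 (by norm_num) (by norm_num)
  have h4 := sub_L (d := 3) (c := (90106 / 37449 : ℝ)) h3 (by norm_num) (by norm_num)
  have h5 := sub_R (d := 4) (c := (157400 / 37449 : ℝ)) h4 (by norm_num) (by norm_num)
  have h6 := sub_L (d := 3) (c := (78700 / 37449 : ℝ)) h5 (by norm_num) (by norm_num)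
  have h7 := sub_R (d := 4) (c := (151697 / 37449 : ℝ)) h6 (by norm_num) (by norm_num)
  have h8 := sub_R (d := 5) (c := (206920 / 37449 : ℝ)) h7 (by norm_num) (by norm_num)
  have h9 := sub_L (d := 4) (c := (103460 / 37449 : ℝ)) h8 (by norm_num) (by norm_num)
  have h10 := sub_L (d := 3) (c := (51730 / 37449 : ℝ)) h9 (by norm_num) (by norm_num)
  have h11 := sub_R (d := 4) (c := (138212 / 37449 : ℝ)) h10 (by norm_num) (by norm_num)
  have h12 := sub_L (d := 3) (c := (69106 / 37449 : ℝ)) h11 (by norm_num) (by norm_num)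
  have h13 := sub_R (d := 4) (c := (146900 / 37449 : ℝ)) h12 (by norm_num) (by norm_num)
  have h14 := sub_L (d := 3) (c := (73450 / 37449 : ℝ)) h13 (by norm_num) (by norm_num)
  have h15 := sub_R (d := 4) (c := (149072 / 37449 : ℝ)) h14 (by norm_num) (by norm_num)
  have h16 := sub_L (d := 3) (c := (74536 / 37449 : ℝ)) h15 (by norm_num) (by norm_num)
  have h17 := sub_L (d := 2) (c := (37268 / 37449 : ℝ)) h16 (by norm_num) (by norm_num)
  have h18 := sub_L (d := 1) (c := (18634 / 37449 : ℝ)) h17 (by norm_num) (by norm_num)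
  exact countable_of_sub (S_subset _ _) (by norm_num) (by norm_num) h18

theorem exitC : (S 3 (114248 / 37449 : ℝ)).Countable := by
  have h0 := cycleB
  have h1 := cnt_L (d := 0) (c := (9317 / 37449 : ℝ)) h0 (by norm_num) (by norm_num)
  have h2 := cnt_R (d := 1) (c := (60832 / 37449 : ℝ)) h1 (by norm_num) (by norm_num)
  have h3 := cnt_L (d := 0) (c := (30416 / 37449 : ℝ)) h2 (by norm_num) (by norm_num)
  have h4 : (S 0 (15208 / 37449 : ℝ)).Countable := cnt_zero (by rw [show 2 * (15208 / 37449 : ℝ) = (30416 / 37449 : ℝ) by norm_num]; exact h3)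
  have h5 := cnt_R (d := 0) (c := (45053 / 37449 : ℝ)) h4 (by norm_num) (by norm_num)
  have h6 := cnt_R (d := 1) (c := (78700 / 37449 : ℝ)) h5 (by norm_num) (by norm_num)
  have h7 := cnt_R (d := 2) (c := (114248 / 37449 : ℝ)) h6 (by norm_num) (by norm_num)
  exact h7

theorem cycleA : (S 1 (1901 / 37449 : ℝ)).Countable := by
  have h0 : Sub (S 1 (1901 / 37449 : ℝ)) (S 1 (1901 / 37449 : ℝ)) 1 := Sub.refl _
  have h1 := sub_X (d := 1) (c := (57124 / 37449 : ℝ)) h0 (by norm_num) exitC (by norm_num)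
  have h2 := sub_R (d := 2) (c := (103460 / 37449 : ℝ)) h1 (by norm_num) (by norm_num)
  have h3 := sub_L (d := 1) (c := (51730 / 37449 : ℝ)) h2 (by norm_num) (by norm_num)
  have h4 := sub_R (d := 2) (c := (100763 / 37449 : ℝ)) h3 (by norm_num) (by norm_num)
  have h5 := sub_R (d := 3) (c := (144004 / 37449 : ℝ)) h4 (by norm_num) (by norm_num)
  have h6 := sub_R (d := 4) (c := (184349 / 37449 : ℝ)) h5 (by norm_num) (by norm_num)
  have h7 := sub_R (d := 5) (c := (223246 / 37449 : ℝ)) h6 (by norm_num) (by norm_num)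
  have h8 := sub_R (d := 6) (c := (261419 / 37449 : ℝ)) h7 (by norm_num) (by norm_num)
  have h9 := sub_R (d := 7) (c := (299230 / 37449 : ℝ)) h8 (by norm_num) (by norm_num)
  have h10 := sub_L (d := 6) (c := (149615 / 37449 : ℝ)) h9 (by norm_num) (by norm_num)
  have h11 := sub_R (d := 7) (c := (243328 / 37449 : ℝ)) h10 (by norm_num) (by norm_num)
  have h12 := sub_L (d := 6) (c := (121664 / 37449 : ℝ)) h11 (by norm_num) (by norm_num)
  have h13 := sub_L (d := 5) (c := (60832 / 37449 : ℝ)) h12 (by norm_num) (by norm_num)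
  have h14 := sub_L (d := 4) (c := (30416 / 37449 : ℝ)) h13 (by norm_num) (by norm_num)
  have h15 := sub_L (d := 3) (c := (15208 / 37449 : ℝ)) h14 (by norm_num) (by norm_num)
  have h16 := sub_L (d := 2) (c := (7604 / 37449 : ℝ)) h15 (by norm_num) (by norm_num)
  have h17 := sub_L (d := 1) (c := (3802 / 37449 : ℝ)) h16 (by norm_num) (by norm_num)
  have h18 := sub_L (d := 0) (c := (1901 / 37449 : ℝ)) h17 (by norm_num) (by norm_num)
  exact countable_of_sub (S_subset _ _) (by norm_num) (by norm_num) h18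

theorem selfMap (t : ℝ) (h0 : t ∈ S 2 (57124 / 37449 : ℝ)) :
    (131837 / 262144 : ℝ) + 1 / 262144 * t ∈ S 2 (57124 / 37449 : ℝ) := by
  have h1 := mem_R (d := 2) (c := (103460 / 37449 : ℝ)) h0 (by norm_num)
  have h2 := mem_L (d := 2) (c := (51730 / 37449 : ℝ)) h1 (by norm_num)
  have h3 := mem_R (d := 2) (c := (100763 / 37449 : ℝ)) h2 (by norm_num)
  have h4 := mem_R (d := 3) (c := (144004 / 37449 : ℝ)) h3 (by norm_num)
  have h5 := mem_R (d := 4) (c := (184349 / 37449 : ℝ)) h4 (by norm_num)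
  have h6 := mem_R (d := 5) (c := (223246 / 37449 : ℝ)) h5 (by norm_num)
  have h7 := mem_R (d := 6) (c := (261419 / 37449 : ℝ)) h6 (by norm_num)
  have h8 := mem_R (d := 7) (c := (299230 / 37449 : ℝ)) h7 (by norm_num)
  have h9 := mem_L (d := 7) (c := (149615 / 37449 : ℝ)) h8 (by norm_num)
  have h10 := mem_R (d := 7) (c := (243328 / 37449 : ℝ)) h9 (by norm_num)
  have h11 := mem_L (d := 7) (c := (121664 / 37449 : ℝ)) h10 (by norm_num)
  have h12 := mem_L (d := 6) (c := (60832 / 37449 : ℝ)) h11 (by norm_num)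
  have h13 := mem_L (d := 5) (c := (30416 / 37449 : ℝ)) h12 (by norm_num)
  have h14 := mem_L (d := 4) (c := (15208 / 37449 : ℝ)) h13 (by norm_num)
  have h15 := mem_L (d := 3) (c := (7604 / 37449 : ℝ)) h14 (by norm_num)
  have h16 := mem_L (d := 2) (c := (3802 / 37449 : ℝ)) h15 (by norm_num)
  have h17 := mem_L (d := 1) (c := (1901 / 37449 : ℝ)) h16 (by norm_num)
  have h18 := mem_R (d := 1) (c := (57124 / 37449 : ℝ)) h17 (by norm_num)
  convert h18 using 1
  ring

theorem infX : (S 2 (57124 / 37449 : ℝ)).Infinite := by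
  obtain ⟨u, hu⟩ := S_nonempty (d := 1) (c := (30416 / 37449 : ℝ)) (by norm_num) (by norm_num)
  have h1 := mem_L (d := 0) (c := (15208 / 37449 : ℝ)) hu (by norm_num)
  have h2 := mem_R (d := 0) (c := (45053 / 37449 : ℝ)) h1 (by norm_num)
  have h3 := mem_R (d := 1) (c := (78700 / 37449 : ℝ)) h2 (by norm_num)
  have h4 := mem_R (d := 2) (c := (114248 / 37449 : ℝ)) h3 (by norm_num)
  have h5 := mem_L (d := 2) (c := (57124 / 37449 : ℝ)) h4 (by norm_num)
  refine infinite_of_map (by norm_num) (by norm_num) selfMap h5 ?_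
  have e0 := hu.1.1
  have e1 := hu.1.2
  intro e
  linarith

theorem pull (t : ℝ) (h0 : t ∈ S 2 (57124 / 37449 : ℝ)) :
    (765 / 262144 : ℝ) + 1 / 262144 * t ∈ S 0 (1901 / 74898 : ℝ) := by
  have h1 := mem_R (d := 2) (c := (103460 / 37449 : ℝ)) h0 (by norm_num)
  have h2 := mem_L (d := 2) (c := (51730 / 37449 : ℝ)) h1 (by norm_num)
  have h3 := mem_R (d := 2) (c := (100763 / 37449 : ℝ)) h2 (by norm_num)
  have h4 := mem_R (d := 3) (c := (144004 / 37449 : ℝ)) h3 (by norm_num)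
  have h5 := mem_R (d := 4) (c := (184349 / 37449 : ℝ)) h4 (by norm_num)
  have h6 := mem_R (d := 5) (c := (223246 / 37449 : ℝ)) h5 (by norm_num)
  have h7 := mem_R (d := 6) (c := (261419 / 37449 : ℝ)) h6 (by norm_num)
  have h8 := mem_R (d := 7) (c := (299230 / 37449 : ℝ)) h7 (by norm_num)
  have h9 := mem_L (d := 7) (c := (149615 / 37449 : ℝ)) h8 (by norm_num)
  have h10 := mem_R (d := 7) (c := (243328 / 37449 : ℝ)) h9 (by norm_num)
  have h11 := mem_L (d := 7) (c := (121664 / 37449 : ℝ)) h10 (by norm_num)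
  have h12 := mem_L (d := 6) (c := (60832 / 37449 : ℝ)) h11 (by norm_num)
  have h13 := mem_L (d := 5) (c := (30416 / 37449 : ℝ)) h12 (by norm_num)
  have h14 := mem_L (d := 4) (c := (15208 / 37449 : ℝ)) h13 (by norm_num)
  have h15 := mem_L (d := 3) (c := (7604 / 37449 : ℝ)) h14 (by norm_num)
  have h16 := mem_L (d := 2) (c := (3802 / 37449 : ℝ)) h15 (by norm_num)
  have h17 := mem_L (d := 1) (c := (1901 / 37449 : ℝ)) h16 (by norm_num)
  have h18 := mem_L (d := 0) (c := (1901 / 74898 : ℝ)) h17 (by norm_num)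
  convert h18 using 1
  ring

theorem level_countable : (levelSet (1901 / 74898 : ℝ)).Countable := by
  rw [← S_zero]
  exact cnt_zero (by rw [show 2 * (1901 / 74898 : ℝ) = (1901 / 37449 : ℝ) by norm_num]; exact cycleA)

theorem level_infinite : (levelSet (1901 / 74898 : ℝ)).Infinite := by
  rw [← S_zero]
  refine Set.infinite_of_injOn_mapsTo (f := fun t : ℝ => (765 / 262144 : ℝ) + 1 / 262144 * t)
    ?_ (fun t ht => pull t ht) infX
  intro s _ t _ e
  simp only at e
  linarith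

theorem not_dyadic (m : ℕ) (k : ℤ) : takagi (k / 2 ^ m) ≠ (1901 / 74898 : ℝ) := by
  obtain ⟨j, hj⟩ := takagi_dyadic m k
  rw [hj]
  intro e
  have hp : (0 : ℝ) < 2 ^ m := by positivity
  rw [div_eq_div_iff hp.ne' (by norm_num)] at e
  have e2 : j * 74898 = 1901 * 2 ^ m := by exact_mod_cast e
  have e3 : (3 : ℤ) ∣ 1901 * 2 ^ m := ⟨j * 24966, by rw [← e2]; ring⟩
  rcases Int.prime_three.dvd_or_dvd e3 with h | h
  · norm_num at h
  · have h2 := Int.prime_three.dvd_of_dvd_pow h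
    norm_num at h2

end Pool.Agent.Lib.MP_4a5b11_an
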