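import Mathlib

namespace Pool.Agent.Lib.MP_4a5b11_an

/-- The distance from `x` to the set of integers. -/
noncomputable def phi (x : ℝ) : ℝ := Metric.infDist x (Set.range (Int.cast : ℤ → ℝ))

/-- The Takagi function `T x = ∑ n, phi (2 ^ n * x) / 2 ^ n`. -/
noncomputable def takagi (x : ℝ) : ℝ := ∑' n : ℕ, phi (2 ^ n * x) / 2 ^ n

/-- The level set `L y` of the Takagi function on the unit interval. -/
def levelSet (y : ℝ) : Set ℝ := {x | x ∈ Set.Icc (0 : ℝ) 1 ∧ takagi x = y}

/-- The set of ordinates `y ∈ [0, 2/3]` whose level set is countably infinite. -/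
def Sco : Set ℝ :=
  {y | y ∈ Set.Icc (0 : ℝ) (2 / 3) ∧ (levelSet y).Countable ∧ (levelSet y).Infinite}

end Pool.Agent.Lib.MP_4a5b11_an
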