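import Pool.Agent.Lib.MP_4a5b11_an.Two

namespace Pool.Agent.Lib.MP_4a5b11_an

open Set

theorem spine_last (x : ℝ) (h0 : 0 < x) (h1 : x ≤ 1 / 12) :
    (S 1 x).encard + 1 ≤ (S 2 ((3 + x) / 2)).encard := by
  have e : 2 * ((3 + x) / 2) - ((1 : ℕ) : ℝ) - 2 = x := by push_cast; ring
  have h := enc_branch 1 ((3 + x) / 2)
    (S_nonempty' _ _ (by linarith) (by push_cast; norm_num; linarith)) (by rw [e]; exact h0.ne')
  rwa [e] at h

theorem spineA (x : ℝ) (h0 : 0 < x) (h1 : x ≤ 1 / 12) :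
    (S 1 x).encard + 1 ≤ (S 1 ((46075 + x) / 2 ^ 20)).encard := by
  have h19 : (S 1 x).encard + 1 ≤ (S 2 ((3 + x) / 2)).encard := spine_last x h0 h1
  have h18 := enc_R (d := 2) (c := ((11 + x) / 4)) h19 (by push_cast; ring)
  have h17 := enc_L (d := 2) (c := ((11 + x) / 8)) h18 (by ring)
  have h16 := enc_R (d := 2) (c := ((43 + x) / 16)) h17 (by push_cast; ring)
  have h15 := enc_R (d := 3) (c := ((123 + x) / 32)) h16 (by push_cast; ring)
  have h14 := enc_R (d := 4) (c := ((315 + x) / 64)) h15 (by push_cast; ring)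
  have h13 := enc_R (d := 5) (c := ((763 + x) / 128)) h14 (by push_cast; ring)
  have h12 := enc_R (d := 6) (c := ((1787 + x) / 256)) h13 (by push_cast; ring)
  have h11 := enc_R (d := 7) (c := ((4091 + x) / 512)) h12 (by push_cast; ring)
  have h10 := enc_R (d := 8) (c := ((9211 + x) / 1024)) h11 (by push_cast; ring)
  have h9 := enc_L (d := 8) (c := ((9211 + x) / 2048)) h10 (by ring)
  have h8 := enc_L (d := 7) (c := ((9211 + x) / 4096)) h9 (by ring)
  have h7 := enc_R (d := 7) (c := ((46075 + x) / 8192)) h8 (by push_cast; ring)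
  have h6 := enc_L (d := 7) (c := ((46075 + x) / 16384)) h7 (by ring)
  have h5 := enc_L (d := 6) (c := ((46075 + x) / 32768)) h6 (by ring)
  have h4 := enc_L (d := 5) (c := ((46075 + x) / 65536)) h5 (by ring)
  have h3 := enc_L (d := 4) (c := ((46075 + x) / 131072)) h4 (by ring)
  have h2 := enc_L (d := 3) (c := ((46075 + x) / 262144)) h3 (by ring)
  have h1 := enc_L (d := 2) (c := ((46075 + x) / 524288)) h2 (by ring)
  have h00 := enc_L (d := 1) (c := ((46075 + x) / 1048576)) h1 (by ring)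
  rwa [show (2 : ℝ) ^ 20 = 1048576 by norm_num]

theorem spineB (x : ℝ) (h0 : 0 < x) (h1 : x ≤ 1 / 12) :
    (S 1 x).encard + 1 ≤ (S 1 ((53243 + x) / 2 ^ 20)).encard := by
  have h19 : (S 1 x).encard + 1 ≤ (S 2 ((3 + x) / 2)).encard := spine_last x h0 h1
  have h18 := enc_R (d := 2) (c := ((11 + x) / 4)) h19 (by push_cast; ring)
  have h17 := enc_L (d := 2) (c := ((11 + x) / 8)) h18 (by ring)
  have h16 := enc_L (d := 1) (c := ((11 + x) / 16)) h17 (by ring)
  have h15 := enc_R (d := 1) (c := ((59 + x) / 32)) h16 (by push_cast; ring)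
  have h14 := enc_R (d := 2) (c := ((187 + x) / 64)) h15 (by push_cast; ring)
  have h13 := enc_R (d := 3) (c := ((507 + x) / 128)) h14 (by push_cast; ring)
  have h12 := enc_R (d := 4) (c := ((1275 + x) / 256)) h13 (by push_cast; ring)
  have h11 := enc_R (d := 5) (c := ((3067 + x) / 512)) h12 (by push_cast; ring)
  have h10 := enc_R (d := 6) (c := ((7163 + x) / 1024)) h11 (by push_cast; ring)
  have h9 := enc_R (d := 7) (c := ((16379 + x) / 2048)) h10 (by push_cast; ring)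
  have h8 := enc_L (d := 7) (c := ((16379 + x) / 4096)) h9 (by ring)
  have h7 := enc_R (d := 7) (c := ((53243 + x) / 8192)) h8 (by push_cast; ring)
  have h6 := enc_L (d := 7) (c := ((53243 + x) / 16384)) h7 (by ring)
  have h5 := enc_L (d := 6) (c := ((53243 + x) / 32768)) h6 (by ring)
  have h4 := enc_L (d := 5) (c := ((53243 + x) / 65536)) h5 (by ring)
  have h3 := enc_L (d := 4) (c := ((53243 + x) / 131072)) h4 (by ring)
  have h2 := enc_L (d := 3) (c := ((53243 + x) / 262144)) h3 (by ring)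
  have h1 := enc_L (d := 2) (c := ((53243 + x) / 524288)) h2 (by ring)
  have h00 := enc_L (d := 1) (c := ((53243 + x) / 1048576)) h1 (by ring)
  rwa [show (2 : ℝ) ^ 20 = 1048576 by norm_num]

theorem spine_enc (n : ℕ) : ∀ σ : ℕ → Bool, (n : ℕ∞) ≤ (S 1 (F σ)).encard := by
  induction n with
  | zero => intro σ; simp
  | succ n ih =>
    intro σ
    have h0 : 0 < F (sh σ) := lt_of_lt_of_le (by norm_num) (F_ge _)
    have h1 := F_le (sh σ)
    have h2 : ((n + 1 : ℕ) : ℕ∞) ≤ (S 1 (F (sh σ))).encard + 1 := by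
      push_cast; exact add_le_add_left (ih _) 1
    rw [F_eq σ]
    cases σ 0
    · simpa [val] using h2.trans (spineA _ h0 h1)
    · simpa [val] using h2.trans (spineB _ h0 h1)

theorem spine_top (σ : ℕ → Bool) : (S 1 (F σ)).encard = ⊤ :=
  ENat.eq_top_iff_forall_ge.2 (fun n => spine_enc n σ)

/-- Solutions of the state `(d, c)` give as many points of the level set at `(j + c) / 2 ^ n`. -/
def Emb (d n : ℕ) (j : ℤ) : Prop :=
  (d + n) % 2 = 0 ∧ ∀ c : ℝ, (S d c).encard ≤ (S 0 ((j + c) / 2 ^ n)).encard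

theorem emb_zero : Emb 0 0 0 := ⟨rfl, fun c => by simp⟩

theorem Emb.left {d n : ℕ} {j : ℤ} (h : Emb d n j) : Emb (d + 1) (n + 1) (2 * j) := by
  refine ⟨by have := h.1; omega, fun c => ?_⟩
  have h1 := (enc_left d (c / 2)).trans (h.2 (c / 2))
  rw [show 2 * (c / 2) = c by ring] at h1
  have e : ((j : ℝ) + c / 2) / 2 ^ n = (((2 * j : ℤ) : ℝ) + c) / 2 ^ (n + 1) := by
    push_cast; rw [pow_succ]; field_simp
  rwa [e] at h1

theorem Emb.right {d n : ℕ} {j : ℤ} (h : Emb (d + 1) n j) : Emb d (n + 1) (2 * j + d + 2) := by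
  refine ⟨by have := h.1; omega, fun c => ?_⟩
  have h1 := (enc_right d ((c + d + 2) / 2)).trans (h.2 _)
  rw [show 2 * ((c + d + 2) / 2) - d - 2 = c by ring] at h1
  have e : ((j : ℝ) + (c + d + 2) / 2) / 2 ^ n =
      (((2 * j + d + 2 : ℤ) : ℝ) + c) / 2 ^ (n + 1) := by
    push_cast; rw [pow_succ]; field_simp; ring
  rwa [e] at h1

theorem emb_follow (y : ℝ) (h0 : 0 ≤ y) (h1 : y ≤ 2 / 3) (n : ℕ) :
    ∃ d j, d ≤ n ∧ Emb d n j ∧ (S d (2 ^ n * y - j)).Nonempty := by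
  induction n with
  | zero =>
    exact ⟨0, 0, le_rfl, emb_zero, S_nonempty' _ _ (by simpa using h0) (by simpa using h1)⟩
  | succ n ih =>
    obtain ⟨d, j, hd, he, t, ht⟩ := ih
    have e1 : 2 * (2 ^ n * y - j) = 2 ^ (n + 1) * y - ((2 * j : ℤ) : ℝ) := by
      push_cast; ring
    rcases d with _ | d
    · refine ⟨1, 2 * j, by omega, he.left, ?_⟩
      rw [← e1]
      rcases S_cases_zero ht with h | h
      · exact ⟨_, h⟩
      · exact ⟨_, h⟩
    · rcases S_cases ht with h | h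
      · exact ⟨d + 2, 2 * j, by omega, he.left, _, by rw [← e1]; exact h⟩
      · refine ⟨d, 2 * j + d + 2, by omega, he.right, 2 * t - 1, ?_⟩
        convert h using 2
        push_cast; ring

theorem emb_descend (d : ℕ) : ∀ (n : ℕ) (j : ℤ), Emb d n j → ∃ (n' : ℕ) (j' : ℤ), Emb 1 n' j' ∧
    (j : ℝ) / 2 ^ n ≤ j' / 2 ^ n' ∧ ((j' : ℝ) + 1) / 2 ^ n' ≤ (j + d + 1) / 2 ^ n := by
  induction d with
  | zero =>
    intro n j h
    have hp : (0 : ℝ) < 2 ^ n := by positivity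
    refine ⟨n + 1, 2 * j, h.left, ?_, ?_⟩
    · push_cast; rw [pow_succ]; apply le_of_eq; field_simp
    · push_cast; rw [pow_succ, div_le_div_iff₀ (by positivity) hp]; nlinarith
  | succ d ih =>
    intro n j h
    have hp : (0 : ℝ) < 2 ^ n := by positivity
    have hd : (0 : ℝ) ≤ d := Nat.cast_nonneg d
    rcases d with _ | d
    · refine ⟨n, j, h, le_rfl, ?_⟩
      exact div_le_div_of_nonneg_right (by push_cast; linarith) hp.le
    · obtain ⟨n', j', he, h1, h2⟩ := ih _ _ h.right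
      refine ⟨n', j', he, le_trans ?_ h1, le_trans h2 ?_⟩
      · push_cast at hd ⊢; rw [pow_succ, div_le_div_iff₀ hp (by positivity)]; nlinarith
      · push_cast at hd ⊢; rw [pow_succ, div_le_div_iff₀ (by positivity) hp]; nlinarith

theorem emb_interval {a b : ℝ} (ha : 0 ≤ a) (hab : a < b) (hb : b ≤ 2 / 3) :
    ∃ (n : ℕ) (j : ℤ), Emb 1 n j ∧ a < (j : ℝ) / 2 ^ n ∧ ((j : ℝ) + 1) / 2 ^ n < b := by
  have hlim : Filter.Tendsto (fun n : ℕ => (n : ℝ) * (1 / 2) ^ n + (1 / 2) ^ n) Filter.atTop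
      (nhds (0 + 0)) :=
    (tendsto_self_mul_const_pow_of_lt_one (by norm_num) (by norm_num)).add
      (tendsto_pow_atTop_nhds_zero_of_lt_one (by norm_num) (by norm_num))
  obtain ⟨n, hn⟩ := (hlim.eventually (gt_mem_nhds (show (0 : ℝ) + 0 < (b - a) / 2 by
    linarith))).exists
  obtain ⟨d, j, hd, he, hne⟩ := emb_follow ((a + b) / 2) (by linarith) (by linarith) n
  obtain ⟨n', j', he', h1, h2⟩ := emb_descend d n j he
  have hp : (0 : ℝ) < 2 ^ n := by positivity
  have hdn : (d : ℝ) ≤ n := by exact_mod_cast hd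
  have c0 : 0 ≤ 2 ^ n * ((a + b) / 2) - j := by
    by_contra hc
    rw [S_empty_neg (not_le.1 hc)] at hne
    exact not_nonempty_empty hne
  have c1 : 2 ^ n * ((a + b) / 2) - j ≤ d + 1 := by
    by_contra hc
    have h5 : (2 : ℝ) / 3 / 2 ^ d ≤ 2 / 3 :=
      div_le_self (by norm_num) (one_le_pow₀ (by norm_num))
    rw [S_empty_big (by linarith [not_le.1 hc])] at hne
    exact not_nonempty_empty hne
  have hn' : (n : ℝ) + 1 < (b - a) / 2 * 2 ^ n := by
    rw [one_div_pow, ← div_lt_iff₀ hp] at *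
    rw [add_div]
    simpa [div_eq_mul_inv] using hn
  refine ⟨n', j', he', lt_of_lt_of_le ?_ h1, lt_of_le_of_lt h2 ?_⟩
  · rw [lt_div_iff₀ hp]; nlinarith
  · rw [div_lt_iff₀ hp]; nlinarith

theorem mem_Sco {a b : ℝ} (ha : 0 ≤ a) (hb : b ≤ 2 / 3) {n : ℕ} {j : ℤ} (he : Emb 1 n j)
    (h1 : a < (j : ℝ) / 2 ^ n) (h2 : ((j : ℝ) + 1) / 2 ^ n < b) (σ : ℕ → Bool) :
    (j + F σ) / 2 ^ n ∈ Ioo a b ∧ (j + F σ) / 2 ^ n ∈ Sco := by
  have hp : (0 : ℝ) < 2 ^ n := by positivity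
  have l1 : (j : ℝ) / 2 ^ n ≤ (j + F σ) / 2 ^ n :=
    div_le_div_of_nonneg_right (by linarith [F_nonneg σ]) hp.le
  have l2 : (j + F σ) / 2 ^ n ≤ ((j : ℝ) + 1) / 2 ^ n :=
    div_le_div_of_nonneg_right (by linarith [F_le σ]) hp.le
  refine ⟨⟨by linarith, by linarith⟩, ⟨by linarith, by linarith⟩, ?_, ?_⟩
  · rw [← S_zero]
    exact cnt_pull σ n 0 (by have := he.1; omega) j
  · rw [← S_zero, ← encard_eq_top_iff, eq_top_iff, ← spine_top σ]
    exact he.2 _

theorem continuum_dense {a b : ℝ} (ha : 0 ≤ a) (hab : a < b) (hb : b ≤ 2 / 3) :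
    Cardinal.mk {y : ℝ | y ∈ Ioo a b ∧ y ∈ Sco ∧
      ∀ m k : ℕ, k ≤ 2 ^ m → takagi ((k : ℝ) / 2 ^ m) ≠ y} = Cardinal.continuum := by
  obtain ⟨n, j, he, h1, h2⟩ := emb_interval ha hab hb
  set N := {y : ℝ | y ∈ Ioo a b ∧ y ∈ Sco ∧
      ∀ m k : ℕ, k ≤ 2 ^ m → takagi ((k : ℝ) / 2 ^ m) ≠ y} with hN
  set D : Set ℝ := range (fun p : ℕ × ℕ => takagi ((p.2 : ℝ) / 2 ^ p.1)) with hD
  have hDc : Cardinal.mk D ≤ Cardinal.aleph0 :=
    Cardinal.le_aleph0_iff_set_countable.2 (countable_range _)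
  refine le_antisymm ((Cardinal.mk_set_le N).trans Cardinal.mk_real.le) ?_
  have hinj : Function.Injective (fun σ : ℕ → Bool => (j + F σ) / 2 ^ n) := by
    intro σ τ e
    simp only at e
    rw [div_left_inj' (by positivity), add_right_inj] at e
    exact F_injective e
  have hsub : range (fun σ : ℕ → Bool => (j + F σ) / 2 ^ n) ⊆ N ∪ D := by
    rintro _ ⟨σ, rfl⟩
    have hm := mem_Sco ha hb he h1 h2 σ
    by_cases hd : (j + F σ) / 2 ^ n ∈ D
    · exact Or.inr hd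
    · exact Or.inl ⟨hm.1, hm.2, fun m k _ e => hd ⟨(m, k), e⟩⟩
  have hc : Cardinal.continuum ≤ Cardinal.mk N + Cardinal.aleph0 := by
    have e := Cardinal.mk_range_eq _ hinj
    have e2 : Cardinal.mk (ℕ → Bool) = Cardinal.continuum := by simp
    rw [← e2, ← e]
    exact ((Cardinal.mk_le_mk_of_subset hsub).trans (Cardinal.mk_union_le _ _)).trans
      (add_le_add_right hDc _)
  by_contra hlt
  exact absurd hc (not_le.2 (Cardinal.add_lt_of_lt Cardinal.aleph0_le_continuum (not_le.1 hlt)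
    Cardinal.aleph0_lt_continuum))

end Pool.Agent.Lib.MP_4a5b11_an
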