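import Pool.Agent.Lib.MP_4a5b11_an.Basic

namespace Pool.Agent.Lib.MP_4a5b11_an

open Set

/-- Solutions in the unit interval of `d * t + T t = c`. -/
def S (d : ℕ) (c : ℝ) : Set ℝ := {t | t ∈ Set.Icc (0 : ℝ) 1 ∧ d * t + takagi t = c}

theorem S_zero (c : ℝ) : S 0 c = levelSet c := by
  ext t; simp [S, levelSet]

theorem S_subset (d : ℕ) (c : ℝ) : S d c ⊆ Icc 0 1 := fun _ h => h.1

theorem S_empty_neg {d : ℕ} {c : ℝ} (h : c < 0) : S d c = ∅ := by
  ext t
  simp only [S, mem_ofPred_eq, mem_empty_iff_false, iff_false, not_and]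
  intro ht hc
  have h1 := takagi_nonneg t
  have h2 : (0 : ℝ) ≤ d * t := mul_nonneg (Nat.cast_nonneg d) ht.1
  linarith

theorem S_empty_big {d : ℕ} {c : ℝ} (h : d + 2 / 3 / 2 ^ d < c) : S d c = ∅ := by
  ext t
  simp only [S, mem_ofPred_eq, mem_empty_iff_false, iff_false, not_and]
  intro ht hc
  have h1 := takagi_sub_le d (1 - t) (by linarith [ht.2]) (by linarith [ht.1])
  rw [takagi_one_sub] at h1
  linarith

theorem S_left {d : ℕ} {c t : ℝ} (h : t ∈ S (d + 1) (2 * c)) : t / 2 ∈ S d c := by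
  obtain ⟨⟨h0, h1⟩, h2⟩ := h
  refine ⟨⟨by linarith, by linarith⟩, ?_⟩
  rw [takagi_left (by linarith) (by linarith), show 2 * (t / 2) = t by ring]
  push_cast at h2
  linarith

theorem S_right {d : ℕ} {c t : ℝ} (h : t ∈ S d (2 * c - d - 2)) : (1 + t) / 2 ∈ S (d + 1) c := by
  obtain ⟨⟨h0, h1⟩, h2⟩ := h
  refine ⟨⟨by linarith, by linarith⟩, ?_⟩
  rw [takagi_right (by linarith) (by linarith), show 2 * ((1 + t) / 2) - 1 = t by ring]
  push_cast
  linarith

theorem S_cases {d : ℕ} {c t : ℝ} (h : t ∈ S (d + 1) c) :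
    2 * t ∈ S (d + 2) (2 * c) ∨ 2 * t - 1 ∈ S d (2 * c - d - 2) := by
  obtain ⟨⟨h0, h1⟩, h2⟩ := h
  rcases le_total t (1 / 2) with h | h
  · left
    refine ⟨⟨by linarith, by linarith⟩, ?_⟩
    rw [takagi_left h0 h] at h2
    push_cast at h2 ⊢
    linarith
  · right
    refine ⟨⟨by linarith, by linarith⟩, ?_⟩
    rw [takagi_right h h1] at h2
    push_cast at h2 ⊢
    linarith

theorem S_cases_zero {c t : ℝ} (h : t ∈ S 0 c) :
    2 * t ∈ S 1 (2 * c) ∨ 2 * (1 - t) ∈ S 1 (2 * c) := by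
  obtain ⟨⟨h0, h1⟩, h2⟩ := h
  rcases le_total t (1 / 2) with h | h
  · left
    refine ⟨⟨by linarith, by linarith⟩, ?_⟩
    rw [takagi_left h0 h] at h2
    push_cast at h2 ⊢
    linarith
  · right
    refine ⟨⟨by linarith, by linarith⟩, ?_⟩
    rw [← takagi_one_sub, takagi_left (by linarith) (by linarith)] at h2
    push_cast at h2 ⊢
    linarith

theorem countable_of_empty {d : ℕ} {c : ℝ} (h : S d c = ∅) : (S d c).Countable := by
  rw [h]; exact countable_empty

theorem cnt_step {d : ℕ} {c : ℝ} (hl : (S (d + 2) (2 * c)).Countable)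
    (hr : (S d (2 * c - d - 2)).Countable) : (S (d + 1) c).Countable := by
  refine ((hl.image (fun t => t / 2)).union (hr.image (fun t => (1 + t) / 2))).mono ?_
  intro t ht
  rcases S_cases ht with h | h
  · left; exact ⟨2 * t, h, by ring⟩
  · right; exact ⟨2 * t - 1, h, by ring⟩

theorem cnt_zero {c : ℝ} (hl : (S 1 (2 * c)).Countable) : (S 0 c).Countable := by
  refine ((hl.image (fun t => t / 2)).union (hl.image (fun t => 1 - t / 2))).mono ?_
  intro t ht
  rcases S_cases_zero ht with h | h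
  · left; exact ⟨2 * t, h, by ring⟩
  · right; exact ⟨2 * (1 - t), h, by ring⟩

/-- Up to a countable set, `X` lies in the image of `Y` under a map `t ↦ a + l * t`. -/
def Sub (X Y : Set ℝ) (l : ℝ) : Prop :=
  ∃ A : Set ℝ, A.Countable ∧ ∃ a : ℝ, X ⊆ A ∪ (fun t => a + l * t) '' Y

theorem Sub.refl (X : Set ℝ) : Sub X X 1 :=
  ⟨∅, countable_empty, 0, fun t ht => Or.inr ⟨t, ht, by simp⟩⟩

theorem sub_left {d : ℕ} {c l : ℝ} {Y : Set ℝ} (hl : Sub (S (d + 2) (2 * c)) Y l)
    (hr : (S d (2 * c - d - 2)).Countable) : Sub (S (d + 1) c) Y (l / 2) := by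
  obtain ⟨A, hA, a, h⟩ := hl
  refine ⟨(fun t => t / 2) '' A ∪ (fun t => (1 + t) / 2) '' S d (2 * c - d - 2),
    (hA.image _).union (hr.image _), a / 2, ?_⟩
  intro t ht
  rcases S_cases ht with h1 | h1
  · rcases h h1 with h2 | ⟨s, hs, h2⟩
    · left; left; exact ⟨2 * t, h2, by ring⟩
    · right; refine ⟨s, hs, ?_⟩
      simp only at h2 ⊢
      linarith
  · left; right; exact ⟨2 * t - 1, h1, by ring⟩

theorem sub_right {d : ℕ} {c l : ℝ} {Y : Set ℝ} (hl : (S (d + 2) (2 * c)).Countable)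
    (hr : Sub (S d (2 * c - d - 2)) Y l) : Sub (S (d + 1) c) Y (l / 2) := by
  obtain ⟨A, hA, a, h⟩ := hr
  refine ⟨(fun t => (1 + t) / 2) '' A ∪ (fun t => t / 2) '' S (d + 2) (2 * c),
    (hA.image _).union (hl.image _), (1 + a) / 2, ?_⟩
  intro t ht
  rcases S_cases ht with h1 | h1
  · left; right; exact ⟨2 * t, h1, by ring⟩
  · rcases h h1 with h2 | ⟨s, hs, h2⟩
    · left; left; exact ⟨2 * t - 1, h2, by ring⟩
    · right; refine ⟨s, hs, ?_⟩
      simp only at h2 ⊢
      linarith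

theorem countable_of_sub {X : Set ℝ} {l : ℝ} (hX : X ⊆ Icc 0 1) (h0 : 0 ≤ l) (h1 : l < 1)
    (h : Sub X X l) : X.Countable := by
  obtain ⟨A, hA, a, h⟩ := h
  set g : ℝ → ℝ := fun t => a + l * t with hg
  set B : Set ℝ := ⋃ n : ℕ, g^[n] '' A with hB
  have hBc : B.Countable := countable_iUnion (fun n => hA.image _)
  have hstep : ∀ t ∈ X \ B, ∃ s ∈ X \ B, t = g s := by
    rintro t ⟨htX, htB⟩
    rcases h htX with h2 | ⟨s, hs, rfl⟩
    · exact absurd (mem_iUnion.2 ⟨0, by simpa using h2⟩) htB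
    · refine ⟨s, ⟨hs, fun hsB => htB ?_⟩, rfl⟩
      obtain ⟨n, u, hu, rfl⟩ := mem_iUnion.1 hsB
      exact mem_iUnion.2 ⟨n + 1, u, hu, by rw [Function.iterate_succ_apply']⟩
  have hdist : ∀ n : ℕ, ∀ t ∈ X \ B, ∀ t' ∈ X \ B, |t - t'| ≤ l ^ n := by
    intro n
    induction n with
    | zero =>
      intro t ht t' ht'
      have e1 := hX ht.1
      have e2 := hX ht'.1
      rw [pow_zero, abs_le]
      constructor <;> linarith [e1.1, e1.2, e2.1, e2.2]
    | succ n ih =>
      intro t ht t' ht'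
      obtain ⟨s, hs, rfl⟩ := hstep t ht
      obtain ⟨s', hs', rfl⟩ := hstep t' ht'
      have e := ih s hs s' hs'
      have e2 : g s - g s' = l * (s - s') := by simp only [hg]; ring
      rw [e2, abs_mul, abs_of_nonneg h0, pow_succ, mul_comm (l ^ n)]
      exact mul_le_mul_of_nonneg_left e h0
  have hsub : (X \ B).Subsingleton := by
    intro t ht t' ht'
    have hlim := tendsto_pow_atTop_nhds_zero_of_lt_one h0 h1
    have e := ge_of_tendsto' hlim (fun n => hdist n t ht t' ht')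
    have e2 : |t - t'| = 0 := le_antisymm e (abs_nonneg _)
    rw [abs_eq_zero] at e2
    linarith
  refine (hBc.union hsub.countable).mono ?_
  intro t ht
  by_cases htB : t ∈ B
  · exact Or.inl htB
  · exact Or.inr ⟨ht, htB⟩

theorem infinite_of_map {X : Set ℝ} {a l t₀ : ℝ} (h0 : 0 < l) (h1 : l < 1)
    (hX : ∀ t ∈ X, a + l * t ∈ X) (ht : t₀ ∈ X) (hne : a + l * t₀ ≠ t₀) : X.Infinite := by
  set p : ℝ := a / (1 - l) with hp
  have hl : (1 - l) ≠ 0 := by linarith
  have hpa : a = p * (1 - l) := by rw [hp]; field_simp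
  have hne' : t₀ - p ≠ 0 := by
    intro e
    apply hne
    have e2 : t₀ = p := by linarith
    rw [e2, hpa]; ring
  refine Set.infinite_of_injective_forall_mem (f := fun n : ℕ => p + l ^ n * (t₀ - p)) ?_ ?_
  · intro n m e
    simp only [add_right_inj] at e
    have e2 := mul_right_cancel₀ hne' e
    exact pow_right_injective₀ h0 h1.ne e2
  · intro n
    induction n with
    | zero => simpa using ht
    | succ n ih =>
      have e := hX _ ih
      have e2 : a + l * (p + l ^ n * (t₀ - p)) = p + l ^ (n + 1) * (t₀ - p) := by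
        rw [hpa, pow_succ]; ring
      rwa [e2] at e

theorem S_nonempty {d : ℕ} {c : ℝ} (h0 : 0 ≤ c) (h1 : c ≤ d) : (S d c).Nonempty := by
  have hc : ContinuousOn (fun t : ℝ => d * t + takagi t) (Icc 0 1) :=
    ((continuous_const.mul continuous_id).add continuous_takagi).continuousOn
  have h := intermediate_value_Icc (zero_le_one) hc
  obtain ⟨t, ht, e⟩ := h (show c ∈ Icc _ _ by
    simp only [mul_zero, takagi_zero, mul_one, takagi_one, add_zero]; exact ⟨h0, h1⟩)
  exact ⟨t, ht, e⟩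

end Pool.Agent.Lib.MP_4a5b11_an
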