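import Pool.Agent.Lib.MP_4a5b11_an.Chain

namespace Pool.Agent.Lib.MP_4a5b11_an

open Set

/-- The two blocks of 20 binary digits: `00001011001111111011` and `00001100111111111011`. -/
def val (i : Bool) : ℕ := if i then 53243 else 46075

/-- The real number whose binary digits are the concatenation of the blocks chosen by `σ`. -/
noncomputable def F (σ : ℕ → Bool) : ℝ := ∑' n : ℕ, (val (σ n) : ℝ) / (2 ^ 20) ^ (n + 1)

/-- The shifted sequence. -/
def sh (σ : ℕ → Bool) : ℕ → Bool := fun n => σ (n + 1)

theorem val_le (i : Bool) : (val i : ℝ) ≤ 53243 := by cases i <;> norm_num [val]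

theorem val_ge (i : Bool) : (46075 : ℝ) ≤ val i := by cases i <;> norm_num [val]

theorem term_le (σ : ℕ → Bool) (n : ℕ) :
    (val (σ n) : ℝ) / (2 ^ 20) ^ (n + 1) ≤ 53243 / 2 ^ 20 * (1 / 2 ^ 20) ^ n := by
  rw [one_div_pow, div_mul_div_comm, mul_one, ← pow_succ']
  exact div_le_div_of_nonneg_right (val_le _) (by positivity)

theorem summable_geo : Summable (fun n : ℕ => (53243 / 2 ^ 20 * (1 / 2 ^ 20) ^ n : ℝ)) :=
  (summable_geometric_of_lt_one (by norm_num) (by norm_num)).mul_left _

theorem summable_F (σ : ℕ → Bool) :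
    Summable (fun n : ℕ => (val (σ n) : ℝ) / (2 ^ 20) ^ (n + 1)) :=
  Summable.of_nonneg_of_le (fun n => by positivity) (term_le σ) summable_geo

theorem F_eq (σ : ℕ → Bool) : F σ = (val (σ 0) + F (sh σ)) / 2 ^ 20 := by
  unfold F
  rw [(summable_F σ).tsum_eq_zero_add, add_div, ← tsum_div_const]
  congr 1
  · simp
  · congr 1; ext n; rw [div_div, ← pow_succ]; rfl

theorem F_nonneg (σ : ℕ → Bool) : 0 ≤ F σ := tsum_nonneg (fun n => by positivity)

theorem F_le (σ : ℕ → Bool) : F σ ≤ 1 / 12 := by
  have h := (summable_F σ).tsum_le_tsum (term_le σ) summable_geo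
  rw [tsum_mul_left, tsum_geometric_of_lt_one (by norm_num) (by norm_num)] at h
  refine le_trans h (by norm_num)

theorem F_ge (σ : ℕ → Bool) : 46075 / 2 ^ 20 ≤ F σ := by
  rw [F_eq]
  refine div_le_div_of_nonneg_right ?_ (by positivity)
  linarith [val_ge (σ 0), F_nonneg (sh σ)]

theorem F_injective : Function.Injective F := by
  have key : ∀ σ τ : ℕ → Bool, F σ = F τ → σ 0 = τ 0 ∧ F (sh σ) = F (sh τ) := by
    intro σ τ h
    rw [F_eq σ, F_eq τ, div_left_inj' (by positivity)] at h
    have a1 := F_nonneg (sh σ)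
    have a2 := F_nonneg (sh τ)
    have b1 := F_le (sh σ)
    have b2 := F_le (sh τ)
    cases h1 : σ 0 <;> cases h2 : τ 0 <;> rw [h1, h2] at h <;> simp [val] at h ⊢ <;>
      first | exact h | linarith
  have all : ∀ n, ∀ σ τ : ℕ → Bool, F σ = F τ → σ n = τ n := by
    intro n
    induction n with
    | zero => intro σ τ h; exact (key σ τ h).1
    | succ n ih => intro σ τ h; exact ih _ _ (key σ τ h).2
  intro σ τ h
  funext n
  exact all n σ τ h

/-- The digits of a block from position `j` on. -/
def rest (i : Bool) (j : ℕ) : ℕ := val i % 2 ^ (20 - j)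

/-- The digit of a block at position `j`. -/
def bit (i : Bool) (j : ℕ) : ℕ := val i / 2 ^ (19 - j) % 2

/-- The fractional part of `2 ^ j * F σ`. -/
noncomputable def g (σ : ℕ → Bool) (j : ℕ) : ℝ := (rest (σ 0) j + F (sh σ)) / 2 ^ (20 - j)

theorem g_zero (σ : ℕ → Bool) : g σ 0 = F σ := by
  have h : ∀ i, rest i 0 = val i := by decide
  rw [g, h, F_eq σ]

theorem g_last (σ : ℕ → Bool) : g σ 20 = g (sh σ) 0 := by
  have h : ∀ i, rest i 20 = 0 := by decide
  rw [g_zero, g, h]; simp

theorem rest_step : ∀ i, ∀ j < 20, rest i j = bit i j * 2 ^ (20 - (j + 1)) + rest i (j + 1) := by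
  decide

theorem g_step (σ : ℕ → Bool) {j : ℕ} (hj : j < 20) :
    2 * g σ j = bit (σ 0) j + g σ (j + 1) := by
  have e : 20 - j = (20 - (j + 1)) + 1 := by omega
  rw [g, g, rest_step _ j hj, e, pow_succ]
  push_cast
  field_simp
  ring

theorem g_nonneg (σ : ℕ → Bool) (j : ℕ) : 0 ≤ g σ j :=
  div_nonneg (add_nonneg (Nat.cast_nonneg _) (F_nonneg _)) (by positivity)

theorem g_lt_one (σ : ℕ → Bool) (j : ℕ) : g σ j < 1 := by
  rw [g, div_lt_one (by positivity)]
  have h : rest (σ 0) j + 1 ≤ 2 ^ (20 - j) := Nat.mod_lt _ (by positivity)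
  have h2 : (rest (σ 0) j : ℝ) + 1 ≤ 2 ^ (20 - j) := by exact_mod_cast h
  linarith [F_le (sh σ)]

/-- The state `(e, e)` at position `j` of block `i` has no solution. -/
def dead (i : Bool) (j e : ℕ) : Bool :=
  decide (2 * 2 ^ 20 * 2 ^ (20 - j) < 3 * 2 ^ e * (rest i j * 2 ^ 20 + 46075))

/-- The state `(d, k)` at position `j` of block `i` may have solutions. -/
def mlive (i : Bool) (j d k : ℕ) : Bool := decide (k < d) || (decide (k = d) && !dead i j d)

theorem empty_of_not_mlive (σ : ℕ → Bool) (j d k : ℕ) (h : mlive (σ 0) j d k = false) :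
    S d (k + g σ j) = ∅ := by
  apply S_empty_big
  simp only [mlive, Bool.or_eq_false_iff, decide_eq_false_iff_not, Bool.and_eq_false_iff,
    Bool.not_eq_false', not_lt] at h
  obtain ⟨h1, h2⟩ := h
  have hp : (0 : ℝ) < 2 ^ d := by positivity
  rcases Nat.eq_or_lt_of_le h1 with h3 | h3
  · subst h3
    rcases h2 with h2 | h2
    · exact absurd rfl h2
    · simp only [dead, decide_eq_true_eq] at h2
      have h4 : (2 * 2 ^ 20 * 2 ^ (20 - j) : ℝ) <
          3 * 2 ^ d * (rest (σ 0) j * 2 ^ 20 + 46075) := by exact_mod_cast h2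
      have h5 := F_ge (sh σ)
      have hq : (0 : ℝ) < 2 ^ (20 - j) := by positivity
      rw [add_lt_add_iff_left, g, div_lt_div_iff₀ hp hq]
      have h6 : (rest (σ 0) j + 46075 / 2 ^ 20 : ℝ) * 2 ^ d ≤
          (rest (σ 0) j + F (sh σ)) * 2 ^ d := mul_le_mul_of_nonneg_right (by linarith) hp.le
      refine lt_of_lt_of_le ?_ h6
      nlinarith
  · have h4 : (d : ℝ) + 1 ≤ k := by exact_mod_cast h3
    have h5 : (2 : ℝ) / 3 / 2 ^ d ≤ 2 / 3 := div_le_self (by norm_num) (one_le_pow₀ (by norm_num))
    linarith [g_nonneg σ j]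

theorem dead_ten : ∀ i, ∀ j < 20, dead i j 10 = true := by decide

theorem dead_big (i : Bool) {j e : ℕ} (hj : j < 20) (he : 10 ≤ e) : dead i j e = true := by
  have h := dead_ten i j hj
  simp only [dead, decide_eq_true_eq] at h ⊢
  refine lt_of_lt_of_le h (Nat.mul_le_mul_right _ (Nat.mul_le_mul_left _ ?_))
  exact Nat.pow_le_pow_right (by norm_num) he

/-- Table of ranks, three bits per state. -/
def tbl : List ℕ := [
  0x1400000000000000200000000000000004c0000000,
  0x140000000000000103000000000000002,
  0x1400000000000000000c00000000000008c0000000,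
  0x143000000000000003000000000000004,
  0x1400c00000000000000c0000000000000140000000,
  0x18000000000000a18000000000000028000000000000004,
  0x3000000000000003000000000000005a00000000000000140000000,
  0x18000000000000018000000000000000a00000000000000028000000000000001,
  0x30000000000000c0000000000000005000000000000000540000000,
  0x30000000000000000000000000000000c0000000000000005000000000000002,
  0xc00000000000000000000000000000000c00000000000000001400000000000000c0000000,
  0x600000000000000000000000000000000628000000000000018000000000000000,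
  0x30000000000000000280000000000000030000000000000000c0000000,
  0x18000000000000000028000000000000018000000000000000,
  0xe80000000000000000000000000000000c0000000,
  0x628000000000000018000000000000000,
  0x280000000000000030000000000000000c0000000,
  0x28000000000000018000000000000002,
  0x50000000000000030000000000000000c0000000,
  0x28000000000000000000000000000000018000000000000001,
  0x1400000000000000200000000000000004c0000000,
  0x140000000000000103000000000000002,
  0x1400000000000000000c00000000000008c0000000,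
  0x143000000000000003000000000000004,
  0x1400c00000000000000c0000000000000140000000,
  0x18000000000000a18000000000000028000000000000001,
  0x18000000000000018000000000000005000000000000000540000000,
  0xc0000000000000000000000000000000003000000000000005000000000000002,
  0x180000000000000000c00000000000001400000000000000c0000000,
  0x600000000000000000018000000000000028000000000000018000000000000000,
  0x30180000000000000280000000000000000000000000000000c0000000,
  0x600000000000000018000000000000000028000000000000018000000000000000,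
  0x30000000000000000e80000000000000000000000000000000c0000000,
  0x18000000000000000628000000000000018000000000000000,
  0xe80000000000000030000000000000000c0000000,
  0x628000000000000018000000000000000,
  0x280000000000000030000000000000000c0000000,
  0x28000000000000018000000000000002,
  0x50000000000000030000000000000000c0000000,
  0x28000000000000000000000000000000018000000000000001]

/-- The rank of a state; states outside the table have the top rank `5`. -/
def rk (i : Bool) (j d k : ℕ) : ℕ :=
  if d < 10 then 5 - (tbl.getD ((if i then 20 else 0) + j) 0 >>> (3 * (10 * d + k))) % 8 else 5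

theorem rk_le (i : Bool) (j d k : ℕ) : rk i j d k ≤ 5 := by
  unfold rk; split <;> omega

/-- The rank condition for one state and one next position. -/
def okc (i : Bool) (j d k : ℕ) (i' : Bool) (j' : ℕ) : Bool :=
  let m := 2 * k + bit i j
  let ll := mlive i' j' (d + 1) m
  let lr := decide (d + 1 ≤ m) && mlive i' j' (d - 1) (m - (d + 1))
  let r := rk i j d k
  let rl := rk i' j' (d + 1) m
  let rr := rk i' j' (d - 1) (m - (d + 1))
  if d = 0 then !ll || decide (rl < r)
  else (!ll || decide (rl ≤ r)) && (!lr || decide (rr ≤ r)) &&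
    (!ll || !lr || decide (rl < r) || decide (rr < r))

/-- The rank condition for one state. -/
def ok (i : Bool) (j d k : ℕ) : Bool :=
  !mlive i j d k ||
    (if j + 1 < 20 then okc i j d k i (j + 1) else okc i j d k false 0 && okc i j d k true 0)

theorem table_ok : ∀ i, ∀ j < 20, ∀ d < 10, ∀ k < 10, (d + j) % 2 = 1 → ok i j d k = true := by
  decide +kernel

theorem okc_big (i : Bool) (j : ℕ) {d : ℕ} (k : ℕ) (i' : Bool) {j' : ℕ} (hd : 10 ≤ d)
    (hj : j' < 20) : okc i j d k i' j' = true := by
  have h5 : rk i j d k = 5 := by unfold rk; rw [if_neg (by omega)]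
  have h0 : d ≠ 0 := by omega
  have hdead := dead_big i' hj (show 10 ≤ d + 1 by omega)
  simp only [okc, if_neg h0, h5, rk_le, decide_true, Bool.or_true, Bool.true_and, Bool.and_self]
  by_cases hm : d + 1 ≤ 2 * k + bit i j
  · have : mlive i' j' (d + 1) (2 * k + bit i j) = false := by
      simp only [mlive, hdead, Bool.not_true, Bool.and_false, Bool.or_false,
        decide_eq_false_iff_not]
      omega
    simp [this]
  · simp [hm]

theorem okc_all (σ : ℕ → Bool) {j d k : ℕ} (hj : j < 20) (hp : (d + j) % 2 = 1)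
    (hl : mlive (σ 0) j d k = true) : ∃ σ' : ℕ → Bool, ∃ j', j' < 20 ∧ j' % 2 = (j + 1) % 2 ∧
      2 * g σ j = bit (σ 0) j + g σ' j' ∧ okc (σ 0) j d k (σ' 0) j' = true := by
  by_cases h : j + 1 < 20
  · refine ⟨σ, j + 1, h, rfl, g_step σ hj, ?_⟩
    rcases lt_or_ge d 10 with hd | hd
    · have hk : k < 10 := by
        simp only [mlive, Bool.or_eq_true, decide_eq_true_eq, Bool.and_eq_true] at hl
        omega
      have := table_ok (σ 0) j hj d hd k hk hp
      simpa [ok, hl, h] using this
    · exact okc_big _ _ _ _ hd h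
  · have hj19 : j = 19 := by omega
    subst hj19
    refine ⟨sh σ, 0, by norm_num, rfl, by rw [g_step σ hj, g_last], ?_⟩
    rcases lt_or_ge d 10 with hd | hd
    · have hk : k < 10 := by
        simp only [mlive, Bool.or_eq_true, decide_eq_true_eq, Bool.and_eq_true] at hl
        omega
      have := table_ok (σ 0) 19 hj d hd k hk hp
      simp only [ok, hl, Bool.not_true, Bool.false_or, if_neg h, Bool.and_eq_true] at this
      cases sh σ 0
      · exact this.1
      · exact this.2
    · exact okc_big _ _ _ _ hd (by norm_num)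

theorem cnt_rank (r : ℕ) : ∀ (σ : ℕ → Bool) (j d k : ℕ), j < 20 → (d + j) % 2 = 1 →
    rk (σ 0) j d k ≤ r → (S d (k + g σ j)).Countable := by
  induction r using Nat.strong_induction_on with
  | _ r ih =>
  have main := countable_of_chain (ι := (ℕ → Bool) × ℕ × ℕ × ℕ)
    {p | p.2.1 < 20 ∧ (p.2.2.1 + p.2.1) % 2 = 1 ∧ rk (p.1 0) p.2.1 p.2.2.1 p.2.2.2 ≤ r}
    (fun p => S p.2.2.1 (p.2.2.2 + g p.1 p.2.1)) (fun p => S_subset _ _) ?_
  · intro σ j d k h1 h2 h3
    exact main (σ, j, d, k) ⟨h1, h2, h3⟩
  rintro ⟨σ, j, d, k⟩ ⟨hj, hp, hr⟩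
  simp only at hj hp hr
  have self : (S d (k + g σ j)).Countable → ∃ q ∈ {p : (ℕ → Bool) × ℕ × ℕ × ℕ |
      p.2.1 < 20 ∧ (p.2.2.1 + p.2.1) % 2 = 1 ∧ rk (p.1 0) p.2.1 p.2.2.1 p.2.2.2 ≤ r},
      Sub (S d (k + g σ j)) (S q.2.2.1 (q.2.2.2 + g q.1 q.2.1)) (1 / 2) :=
    fun h => ⟨(σ, j, d, k), ⟨hj, hp, hr⟩, sub_of_countable h⟩
  cases hl : mlive (σ 0) j d k
  · exact self (countable_of_empty (empty_of_not_mlive σ j d k hl))
  obtain ⟨σ', j', hj', hp', hg, hok⟩ := okc_all σ hj hp hl
  set m := 2 * k + bit (σ 0) j with hm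
  have e1 : 2 * (k + g σ j) = (m : ℝ) + g σ' j' := by rw [hm]; push_cast; linarith
  -- a child that is dead or of smaller rank has countably many solutions
  have low : ∀ e n : ℕ, (e + j') % 2 = 1 →
      (mlive (σ' 0) j' e n = false ∨ rk (σ' 0) j' e n < rk (σ 0) j d k) →
      (S e (n + g σ' j')).Countable := by
    rintro e n he (h | h)
    · exact countable_of_empty (empty_of_not_mlive σ' j' e n h)
    · exact ih _ (lt_of_lt_of_le h hr) σ' j' e n hj' he le_rfl
  rcases d with _ | d
  · apply self
    apply cnt_zero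
    rw [e1]
    refine low 1 m (by omega) ?_
    simpa [okc, ← hm] using hok
  · have hpl : (d + 2 + j') % 2 = 1 := by omega
    have hpr : (d + j') % 2 = 1 := by omega
    simp only [okc, ← hm, Nat.succ_ne_zero, if_false, Nat.add_sub_cancel, Bool.and_eq_true,
      Bool.or_eq_true, Bool.not_eq_true', decide_eq_true_eq, Bool.and_eq_false_iff,
      decide_eq_false_iff_not] at hok
    obtain ⟨⟨ok1, ok2⟩, ok3⟩ := hok
    have goL : (S d (2 * (k + g σ j) - d - 2)).Countable → ∃ q ∈ {p : (ℕ → Bool) × ℕ × ℕ × ℕ |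
        p.2.1 < 20 ∧ (p.2.2.1 + p.2.1) % 2 = 1 ∧ rk (p.1 0) p.2.1 p.2.2.1 p.2.2.2 ≤ r},
        Sub (S (d + 1) (k + g σ j)) (S q.2.2.1 (q.2.2.2 + g q.1 q.2.1)) (1 / 2) := by
      intro hc
      rcases ok1 with h | h
      · exact self (cnt_step (by rw [e1]; exact low (d + 2) m hpl (Or.inl h)) hc)
      · refine ⟨(σ', j', d + 2, m), ⟨hj', hpl, h.trans hr⟩, sub_left ?_ hc⟩
        rw [e1]; exact Sub.refl _
    by_cases hge : d + 1 + 1 ≤ m
    · have e2 : 2 * (k + g σ j) - d - 2 = ((m - (d + 1 + 1) : ℕ) : ℝ) + g σ' j' := by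
        rw [e1, Nat.cast_sub hge]; push_cast; ring
      have goR : (S (d + 2) (2 * (k + g σ j))).Countable →
          ∃ q ∈ {p : (ℕ → Bool) × ℕ × ℕ × ℕ |
          p.2.1 < 20 ∧ (p.2.2.1 + p.2.1) % 2 = 1 ∧ rk (p.1 0) p.2.1 p.2.2.1 p.2.2.2 ≤ r},
          Sub (S (d + 1) (k + g σ j)) (S q.2.2.1 (q.2.2.2 + g q.1 q.2.1)) (1 / 2) := by
        intro hc
        rcases ok2 with (h | h) | h
        · exact absurd hge h
        · exact self (cnt_step hc (by rw [e2]; exact low d _ hpr (Or.inl h)))
        · refine ⟨(σ', j', d, m - (d + 1 + 1)), ⟨hj', hpr, h.trans hr⟩, sub_right hc ?_⟩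
          rw [e2]; exact Sub.refl _
      rcases ok3 with ((h | h | h) | h) | h
      · exact goR (by rw [e1]; exact low (d + 2) m hpl (Or.inl h))
      · exact absurd hge h
      · exact goL (by rw [e2]; exact low d _ hpr (Or.inl h))
      · exact goR (by rw [e1]; exact low (d + 2) m hpl (Or.inr h))
      · exact goL (by rw [e2]; exact low d _ hpr (Or.inr h))
    · apply goL
      apply countable_of_empty
      apply S_empty_neg
      have h1 : (m : ℝ) ≤ d + 1 := by exact_mod_cast (show m ≤ d + 1 by omega)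
      rw [e1]
      linarith [g_lt_one σ' j']

theorem cnt_odd (σ : ℕ → Bool) (d : ℕ) (hd : d % 2 = 1) (k : ℤ) :
    (S d (k + F σ)).Countable := by
  rcases lt_or_ge k 0 with hk | hk
  · apply countable_of_empty
    apply S_empty_neg
    have h1 : (k : ℝ) ≤ -1 := by exact_mod_cast (show k ≤ -1 by omega)
    linarith [F_le σ]
  · obtain ⟨n, rfl⟩ := Int.eq_ofNat_of_zero_le hk
    have h := cnt_rank 5 σ 0 d n (by norm_num) (by omega) (rk_le _ _ _ _)
    rw [g_zero] at h
    simpa using h

theorem cnt_pull (σ : ℕ → Bool) (n : ℕ) : ∀ d : ℕ, (d + n) % 2 = 1 → ∀ k : ℤ,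
    (S d ((k + F σ) / 2 ^ n)).Countable := by
  induction n with
  | zero => intro d hd k; simpa using cnt_odd σ d (by omega) k
  | succ n ih =>
    intro d hd k
    have e1 : 2 * ((k + F σ) / 2 ^ (n + 1)) = (k + F σ) / 2 ^ n := by
      rw [pow_succ]; field_simp
    rcases d with _ | d
    · apply cnt_zero
      rw [e1]; exact ih 1 (by omega) k
    · apply cnt_step
      · rw [e1]; exact ih (d + 2) (by omega) k
      · have e2 : (k + F σ) / 2 ^ n - d - 2 = (((k - (d + 2) * 2 ^ n : ℤ) : ℝ) + F σ) / 2 ^ n := by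
          push_cast; field_simp; ring
        rw [e1, e2]; exact ih d (by omega) _

end Pool.Agent.Lib.MP_4a5b11_an
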